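import Mathlib

set_option autoImplicit false

namespace Pool.Agent.Results.MP_92d133_al.NotInherited

/-- Green's preorder `a ≤_J b`, i.e. `a ∈ S¹ b S¹`. -/
def JLe {S : Type} [Semigroup S] (a b : S) : Prop :=
  ∃ u v : WithOne S, (a : WithOne S) = u * (b : WithOne S) * v

/-- Chains of `J`-classes have bounded size. -/
def FiniteJHeight (S : Type) [Semigroup S] : Prop :=
  ∃ N : ℕ, ∀ (n : ℕ) (f : Fin n → S),
    (∀ i j, i < j → JLe (f j) (f i) ∧ ¬ JLe (f i) (f j)) → n ≤ N

/-- Bi-ideals. -/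
def IsBiIdeal {S : Type} [Semigroup S] (B : Subsemigroup S) : Prop :=
  (B : Set S).Nonempty ∧ ∀ b ∈ B, ∀ s : S, ∀ c ∈ B, b * s * c ∈ B

inductive T
  | z : T
  | e : Bool → ℕ → ℕ → Bool → T

def T.mul : T → T → T
  | .e i a b j, .e k c d l => if j = k then .e i (a + (c - b)) (d + (b - c)) l else .z
  | _, _ => .z

instance : Mul T := ⟨T.mul⟩

theorem mul_ee (i j k l : Bool) (a b c d : ℕ) : (T.e i a b j * T.e k c d l : T) =
    if j = k then .e i (a + (c - b)) (d + (b - c)) l else .z := rfl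
theorem z_mul (x : T) : T.z * x = T.z := by cases x <;> rfl
theorem mul_z (x : T) : x * T.z = T.z := by cases x <;> rfl

instance : Semigroup T where
  mul_assoc x y w := by
    rcases x with _ | ⟨i, a, b, j⟩
    · simp only [z_mul]
    rcases y with _ | ⟨k, c, d, l⟩
    · simp only [z_mul, mul_z]
    rcases w with _ | ⟨m, p, q, n⟩
    · simp only [mul_z]
    rw [mul_ee, mul_ee]
    split_ifs with h1 h2 h2
    · rw [mul_ee, mul_ee, if_pos h1, if_pos h2]
      congr 1 <;> omega
    · rw [mul_ee, if_neg h2, mul_z]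
    · rw [mul_ee, if_neg h1, z_mul]
    · rw [z_mul, mul_z]

theorem jle_e (x : T) (k l : Bool) (c d : ℕ) : JLe x (T.e k c d l) := by
  rcases x with _ | ⟨i, a, b, j⟩
  · refine ⟨(T.z : T), (T.z : T), ?_⟩
    rw [← WithOne.coe_mul, ← WithOne.coe_mul, mul_z]
  · refine ⟨(T.e i a c k : T), (T.e l d b j : T), ?_⟩
    rw [← WithOne.coe_mul, ← WithOne.coe_mul, mul_ee, if_pos rfl, mul_ee, if_pos rfl]
    simp

def B : Subsemigroup T where
  carrier := {x | ∀ a b j, x ≠ T.e false a b j}
  mul_mem' := by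
    intro x y hx _ a b j
    rcases x with _ | ⟨i, a, b, j⟩
    · rw [z_mul]; simp
    rcases y with _ | ⟨k, c, d, l⟩
    · rw [mul_z]; simp
    cases i
    · exact absurd rfl (hx _ _ _)
    · rw [mul_ee]; split_ifs <;> simp

theorem B_right (x y : T) (hx : x ∈ B) : x * y ∈ B := by
  intro a b j
  rcases x with _ | ⟨i, a, b, j⟩
  · rw [z_mul]; simp
  rcases y with _ | ⟨k, c, d, l⟩
  · rw [mul_z]; simp
  cases i
  · exact absurd rfl (hx _ _ _)
  · rw [mul_ee]; split_ifs <;> simp

def c (n : ℕ) : B := ⟨T.e true n n false, by intro a b j; simp⟩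

theorem not_le (m n : ℕ) (h : m < n) : ¬ JLe (c m) (c n) := by
  rintro ⟨u, v, huv⟩
  have key : ∀ u : WithOne B, ∃ y : B, u * (c n : WithOne B) = (y : WithOne B) ∧
      (y.1 = T.z ∨ ∃ i p q, n ≤ q ∧ y.1 = T.e i p q false) := by
    intro u
    induction u using WithOne.recOneCoe with
    | one => exact ⟨c n, one_mul _, Or.inr ⟨_, _, _, le_rfl, rfl⟩⟩
    | coe u =>
      refine ⟨u * c n, rfl, ?_⟩
      obtain ⟨u, hu⟩ := u
      rcases u with _ | ⟨i, a, b, j⟩
      · exact Or.inl (z_mul _)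
      · change T.e i a b j * T.e true n n false = _ ∨
          ∃ i' p q, n ≤ q ∧ T.e i a b j * T.e true n n false = _
        rw [mul_ee]
        split_ifs
        · exact Or.inr ⟨_, _, _, Nat.le_add_right _ _, rfl⟩
        · exact Or.inl rfl
  obtain ⟨y, hy, hy'⟩ := key u
  rw [hy] at huv
  induction v using WithOne.recOneCoe with
  | one =>
    rw [mul_one, WithOne.coe_inj] at huv
    subst huv
    rcases hy' with h0 | ⟨i, p, q, h1, h0⟩
    · simp [c] at h0
    · simp only [c, T.e.injEq] at h0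
      omega
  | coe v =>
    rw [← WithOne.coe_mul, WithOne.coe_inj] at huv
    have h2 : T.e true m m false = y.1 * v.1 := congrArg Subtype.val huv
    obtain ⟨v, hv⟩ := v
    rcases hy' with h0 | ⟨i, p, q, -, h0⟩
    · rw [h0, z_mul] at h2; simp at h2
    · rw [h0] at h2
      rcases v with _ | ⟨k, a, b, l⟩
      · rw [mul_z] at h2; simp at h2
      · cases k
        · exact hv _ _ _ rfl
        · simp [mul_ee] at h2

/-- A semigroup of finite `J`-height with a bi-ideal (even a right ideal) of infinite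
`J`-height. -/
theorem result : ∃ (S : Type) (_ : Semigroup S) (B : Subsemigroup S),
    FiniteJHeight S ∧ IsBiIdeal B ∧ (∀ b ∈ B, ∀ s : S, b * s ∈ B) ∧ ¬ FiniteJHeight B := by
  refine ⟨T, inferInstance, B, ⟨2, fun n f hf => ?_⟩,
    ⟨⟨_, (c 0).2⟩, fun b hb s c _ => B_right _ _ (B_right _ _ hb)⟩,
    fun b hb s => B_right _ _ hb, ?_⟩
  · by_contra hn
    have h01 := hf ⟨0, by omega⟩ ⟨1, by omega⟩ (by simp)
    have h12 := hf ⟨1, by omega⟩ ⟨2, by omega⟩ (by simp)
    have h1 : f ⟨1, by omega⟩ = T.z := by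
      rcases h : f ⟨1, by omega⟩ with _ | _
      · rfl
      · exact absurd (h ▸ jle_e _ _ _ _ _) h01.2
    have h2 : f ⟨2, by omega⟩ = T.z := by
      rcases h : f ⟨2, by omega⟩ with _ | _
      · rfl
      · exact absurd (h ▸ jle_e _ _ _ _ _) h12.2
    exact h12.2 ⟨1, 1, by rw [h1, h2]; simp⟩
  · rintro ⟨N, hN⟩
    have := hN (N + 1) (fun i => c i) (fun i j hij => ⟨?_, not_le _ _ hij⟩)
    · omega
    · refine ⟨((⟨T.e true j j true, by intro a b j; simp⟩ : B) : WithOne B), 1, ?_⟩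
      rw [mul_one, ← WithOne.coe_mul, WithOne.coe_inj]
      apply Subtype.ext
      change T.e true j j false = T.e true j j true * T.e true i i false
      have : (i : ℕ) < j := hij
      rw [mul_ee, if_pos rfl]
      congr 1 <;> omega

end Pool.Agent.Results.MP_92d133_al.NotInherited
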